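import Pool.Agent.AEC.StmtsS

/-!
# Squad AEC (MP_23d7af_lc), part S: the row S_FRA
-/

set_option autoImplicit false

open FirstOrder FirstOrder.Language Cardinal Set

universe u

namespace Pool.Agent.AEC.S.H6

/-- a component of the complement of `Sv` is small in members of cardinality `l` -/
theorem small_cmp (wgr : WgrStmt.{u}) (aut : AutStmt.{u}) (typ : TypStmt.{u})
    {L : FirstOrder.Language.{u, u}} [L.IsRelational] {κ : Cardinal.{u}} {K : AEC L κ}
    {τ : Tpl L κ} {l : Cardinal.{u}} (hl : HL K τ l) (B : K.Mod) (hB : #B.α = l) (x : B.α)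
    (hx : x ∉ Sv L κ B.α) : #(cmp L (Sv L κ B.α) x) ≤ κ := by
  obtain ⟨hOK, hκ, hcat⟩ := hl
  have hκl : κ < l := Order.succ_le_iff.1 hκ
  obtain ⟨T, hT⟩ : ∃ T : Type u, #T = l := ⟨l.out, Cardinal.mk_out l⟩
  obtain ⟨φ⟩ := (typ L κ K τ hOK).2 l hκl hcat B T hB hT
  obtain ⟨y, rfl⟩ := φ.surjective x
  obtain ⟨-, h2, -, h4, -⟩ := aut L κ (W τ T) B.α φ
  have hy : y ∉ Sv L κ (W τ T) := fun h => hx (h2 ▸ ⟨y, h, rfl⟩)
  have h5 := (wgr L κ τ T K.aleph0_le (hT ▸ hκl)).2.2 y hy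
  have h6 := h4 (Sv L κ (W τ T)) y
  rw [h2] at h6
  rw [← h6]
  exact Cardinal.mk_image_le.trans h5

/-- a `𝒦`-embedding which maps `S` onto `S'` maps components into components -/
theorem image_cmp {L : FirstOrder.Language.{u, u}} {M N : Type u} [L.Structure M]
    [L.Structure N] (f : M ↪[L] N) (S : Set M) (x : M) :
    f '' cmp L S x ⊆ cmp L (f '' S) (f x) := by
  rintro _ ⟨y, hy, rfl⟩
  change Relation.ReflTransGen _ _ _ at hy
  change Relation.ReflTransGen _ _ _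
  induction hy with
  | refl => exact Relation.ReflTransGen.refl
  | @tail b c _ hbc ih =>
    refine ih.tail ⟨?_, ?_⟩
    · obtain ⟨⟨hne, n, R, v, hv, ⟨i, hi⟩, ⟨j, hj⟩⟩, -⟩ := hbc
      refine ⟨fun h => hne (f.injective h), n, R, f ∘ v, (f.map_rel R v).2 hv,
        ⟨i, ?_⟩, ⟨j, ?_⟩⟩
      · rw [Function.comp_apply, hi]
      · rw [Function.comp_apply, hj]
    · rintro ⟨z, hz, hzc⟩
      exact hbc.2 (f.injective hzc ▸ hz)

theorem fra (sta : StaStmt.{u}) (svc : SvcStmt.{u}) (wgr : WgrStmt.{u}) (aut : AutStmt.{u})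
    (typ : TypStmt.{u}) : FraStmt.{u} := by
  intro L _ κ K τ l hl M x hM hx
  have hsv : ∀ (B : K.Mod) (e : K.Hom M B), #B.α = l → e x ∉ Sv L κ B.α := by
    intro B e hB h
    rw [svc L κ K τ l hl M B e hM hB] at h
    obtain ⟨z, hz, hzx⟩ := h
    exact hx (e.injective hzx ▸ hz)
  obtain ⟨N, e, hN, hst⟩ := sta L κ K l M (fun B e => cmp L (Sv L κ B.α) (e x)) hl.2.1 hM
    (fun B e hB => small_cmp wgr aut typ hl B hB (e x) (hsv B e hB))
    (fun B C e f hB hC => by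
      have h1 := image_cmp f.toEmb (Sv L κ B.α) (e x)
      have h2 : Sv L κ C.α = f.toEmb '' Sv L κ B.α := svc L κ K τ l hl B C f hB hC
      rw [← h2] at h1
      exact h1)
  exact ⟨N, e, hN, hsv N e hN, fun C f hC => hst C f hC⟩

end Pool.Agent.AEC.S.H6
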