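import Pool.Agent.AEC.StmtsS

/-!
# Squad AEC (MP_23d7af_lc), part S: the row S_FRM
-/

set_option autoImplicit false

open FirstOrder FirstOrder.Language Cardinal Set

universe u

namespace Pool.Agent.AEC.S.H6

theorem not_mem_of_con {L : FirstOrder.Language.{u, u}} {N : Type u} [L.Structure N] {T : Set N}
    {x y : N} (hx : x ∉ T) (h : con L T x y) : y ∉ T := by
  rcases Relation.ReflTransGen.cases_tail h with h | ⟨z, -, h⟩
  · exact h ▸ hx
  · exact h.2

theorem cmp_eq (aut : AutStmt.{u}) {L : FirstOrder.Language.{u, u}} {κ : Cardinal.{u}}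
    {N : Type u} [L.Structure N] {T : Set N} {x y : N} (hx : x ∉ T) (h : y ∈ cmp L T x) :
    y ∉ T ∧ cmp L T y = cmp L T x := by
  have hy : y ∉ T := not_mem_of_con hx h
  have h' : con L T y x :=
    (aut L κ N N (FirstOrder.Language.Equiv.refl L N)).2.2.2.2 T x y hx hy h
  refine ⟨hy, Set.ext fun z => ⟨fun hz => ?_, fun hz => ?_⟩⟩
  · exact Relation.ReflTransGen.trans h hz
  · exact Relation.ReflTransGen.trans h' hz

theorem frm (svc : SvcStmt.{u}) (aut : AutStmt.{u}) : FrmStmt.{u} := by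
  intro L _ κ K τ l hl
  have one : ∀ (M N : K.Mod) (f : K.Hom M N), #M.α = l → #N.α = l → f '' Fr l M ⊆ Fr l N := by
    rintro M N f hM hN _ ⟨x, hx, rfl⟩
    have h1 := svc L κ K τ l hl M N f hM hN
    refine ⟨?_, ?_⟩
    · intro h
      rw [h1] at h
      obtain ⟨z, hz, hzx⟩ := h
      exact hx.1 (f.injective hzx ▸ hz)
    · intro Q g hQ
      have h2 := hx.2 Q (g.comp f) hQ
      have h3 := hx.2 N f hN
      rw [AEC.Hom.comp_apply] at h2
      rw [h3, h2, Set.image_image]
      rfl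
  refine ⟨one, ?_, ?_⟩
  · intro M N e hM
    have hN : #N.α = l := by
      rw [← hM]
      exact (Cardinal.mk_congr e.toEquiv).symm
    refine Set.Subset.antisymm (one M N (AEC.Hom.ofEquiv e) hM hN) ?_
    intro y hy
    refine ⟨e.symm y, ?_, e.apply_symm_apply y⟩
    exact one N M (AEC.Hom.ofEquiv e.symm) hN hM ⟨y, hy, rfl⟩
  · intro M x y hM hx hy
    have h1 := cmp_eq (κ := κ) aut hx.1 hy
    refine ⟨h1.1, ?_⟩
    intro N f hN
    have h2 := svc L κ K τ l hl M N f hM hN
    have h3 := hx.2 N f hN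
    have h4 : f x ∉ Sv L κ N.α := by
      intro h
      rw [h2] at h
      obtain ⟨z, hz, hzx⟩ := h
      exact hx.1 (f.injective hzx ▸ hz)
    have h5 : f y ∈ cmp L (Sv L κ N.α) (f x) := by
      rw [h3]
      exact ⟨y, hy, rfl⟩
    rw [(cmp_eq (κ := κ) aut h4 h5).2, h3, h1.2]

end Pool.Agent.AEC.S.H6
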